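import Pool.Agent.Helper35.MS.StF

/-!
Project MS (MP_925021_gt): module FN1 (one time: small dissipation implies small energy and area).
-/

set_option autoImplicit false

namespace Pool.Agent.Helper6.MS

open Helper35.MS Helper35.PI Helper35.PI2 Helper32.CL
open scoped ContDiff Manifold Topology ENNReal BigOperators
open MeasureTheory Set Filter

section Abstract

variable {M : Type} [MeasurableSpace M] {μ : Measure M}

theorem FN1_core [IsFiniteMeasure μ] {Y θ g : M → ℝ} {δ a : ℝ} {P : Set M} (hP : MeasurableSet P)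
    (hY : Integrable Y μ) (hθ : Integrable θ μ) (hg : Integrable g μ) (hδ : 0 < δ) (ha : 0 < a)
    (h4 : ∀ q, 4 ≤ Y q) (h0 : ∀ q, 0 ≤ θ q) (h1 : ∀ q, θ q ≤ 2 / 3 * Y q) (hg0 : ∀ q, 0 ≤ g q)
    (hg1 : ∀ q, δ * (Y q * θ q) ≤ g q) (hPY : ∀ q ∈ P, a ^ 2 / 16 ≤ Y q) :
    ∫ q, θ q ∂μ ≤ 2 * (∫ q, Y q ∂μ - ∫ q, θ q ∂μ) - 2 * ∫ q in P, Y q ∂μ
      + 48 / (a ^ 2 * δ) * ∫ q, g q ∂μ ∧
    μ.real univ ≤ 3 / 4 * (∫ q, Y q ∂μ - ∫ q, θ q ∂μ) - 3 / 4 * ∫ q in P, Y q ∂μ
      + 12 / (a ^ 2 * δ) * ∫ q, g q ∂μ + 16 / a ^ 2 * ∫ q, Y q ∂μ := by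
  have hYP : Integrable (P.indicator Y) μ := hY.indicator hP
  have ha2 : 0 < a ^ 2 := by positivity
  have hth : ∀ q ∈ P, θ q ≤ 16 / (a ^ 2 * δ) * g q := by
    intro q hq
    have e1 := hg1 q
    have e2 := hPY q hq
    have e3 : δ * (a ^ 2 / 16 * θ q) ≤ δ * (Y q * θ q) :=
      mul_le_mul_of_nonneg_left (mul_le_mul_of_nonneg_right e2 (h0 q)) hδ.le
    rw [div_mul_eq_mul_div, le_div_iff₀ (by positivity)]
    nlinarith
  constructor
  · have hpt : ∀ q, θ q ≤ (2 * (Y q - θ q) - 2 * P.indicator Y q) + 48 / (a ^ 2 * δ) * g q := by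
      intro q
      by_cases hq : q ∈ P
      · rw [indicator_of_mem hq]
        have e1 := hth q hq
        have e2 : 48 / (a ^ 2 * δ) * g q = 3 * (16 / (a ^ 2 * δ) * g q) := by ring
        rw [e2]
        linarith
      · rw [indicator_of_notMem hq]
        have e1 : 0 ≤ 48 / (a ^ 2 * δ) * g q := mul_nonneg (by positivity) (hg0 q)
        have e2 := h1 q
        linarith
    have hd : Integrable (fun q => Y q - θ q) μ := hY.sub hθ
    have hA : Integrable (fun q => 2 * (Y q - θ q)) μ := hd.const_mul 2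
    have hB : Integrable (fun q => 2 * P.indicator Y q) μ := hYP.const_mul 2
    have hi1 : Integrable (fun q => 2 * (Y q - θ q) - 2 * P.indicator Y q) μ := hA.sub hB
    have hi2 : Integrable (fun q => 48 / (a ^ 2 * δ) * g q) μ := hg.const_mul _
    have h := integral_mono hθ (hi1.add hi2) hpt
    refine h.trans (le_of_eq ?_)
    change ∫ q, ((2 * (Y q - θ q) - 2 * P.indicator Y q) + 48 / (a ^ 2 * δ) * g q) ∂μ = _
    rw [integral_add hi1 hi2, integral_sub hA hB,
      integral_const_mul, integral_const_mul, integral_const_mul, integral_indicator hP,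
      integral_sub hY hθ]
  · have hpt : ∀ q, (1 : ℝ) ≤ ((3 / 4 * (Y q - θ q) - 3 / 4 * P.indicator Y q)
        + 12 / (a ^ 2 * δ) * g q) + 16 / a ^ 2 * Y q := by
      intro q
      by_cases hq : q ∈ P
      · rw [indicator_of_mem hq]
        have e1 := hth q hq
        have e2 : 12 / (a ^ 2 * δ) * g q = 3 / 4 * (16 / (a ^ 2 * δ) * g q) := by ring
        have e3 : 1 ≤ 16 / a ^ 2 * Y q := by
          have := hPY q hq
          rw [div_mul_eq_mul_div, le_div_iff₀ ha2]
          linarith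
        rw [e2]
        linarith
      · rw [indicator_of_notMem hq]
        have e1 : 0 ≤ 12 / (a ^ 2 * δ) * g q := mul_nonneg (by positivity) (hg0 q)
        have e2 := h1 q
        have e3 := h4 q
        have e4 : 0 ≤ 16 / a ^ 2 * Y q := mul_nonneg (by positivity) (by linarith)
        linarith
    have hd : Integrable (fun q => Y q - θ q) μ := hY.sub hθ
    have hA : Integrable (fun q => 3 / 4 * (Y q - θ q)) μ := hd.const_mul _
    have hB : Integrable (fun q => 3 / 4 * P.indicator Y q) μ := hYP.const_mul _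
    have hi1 : Integrable (fun q => 3 / 4 * (Y q - θ q) - 3 / 4 * P.indicator Y q) μ :=
      hA.sub hB
    have hi2 : Integrable (fun q => 12 / (a ^ 2 * δ) * g q) μ := hg.const_mul _
    have hi3 : Integrable (fun q => 16 / a ^ 2 * Y q) μ := hY.const_mul _
    have hi12 : Integrable (fun q => (3 / 4 * (Y q - θ q) - 3 / 4 * P.indicator Y q)
      + 12 / (a ^ 2 * δ) * g q) μ := hi1.add hi2
    have h := integral_mono (integrable_const (1 : ℝ)) (hi12.add hi3) hpt
    rw [integral_const, smul_eq_mul, mul_one] at h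
    refine h.trans (le_of_eq ?_)
    change ∫ q, (((3 / 4 * (Y q - θ q) - 3 / 4 * P.indicator Y q) + 12 / (a ^ 2 * δ) * g q)
      + 16 / a ^ 2 * Y q) ∂μ = _
    rw [integral_add hi12 hi3, integral_add hi1 hi2, integral_sub hA hB,
      integral_const_mul, integral_const_mul, integral_const_mul, integral_const_mul,
      integral_indicator hP, integral_sub hY hθ]

theorem FN1_z {Y : M → ℝ} {k a : ℝ} {Q : Set M} (hQ : MeasurableSet Q) (hY : Integrable Y μ)
    (hZ : Integrable (fun q => Real.sqrt (Y q ^ 2 + k ^ 2) - k) μ) (hk : 0 < k)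
    (h4 : ∀ q, 0 ≤ Y q) (hQY : ∀ q, q ∉ Q → Y q ≤ a ^ 2) :
    ∫ q, (Real.sqrt (Y q ^ 2 + k ^ 2) - k) ∂μ ≤ a ^ 2 / (2 * k) * ∫ q, Y q ∂μ
      + ∫ q in Q, Y q ∂μ := by
  have hYQ : Integrable (Q.indicator Y) μ := hY.indicator hQ
  have hpt : ∀ q, Real.sqrt (Y q ^ 2 + k ^ 2) - k ≤ a ^ 2 / (2 * k) * Y q + Q.indicator Y q := by
    intro q
    have h0 := h4 q
    by_cases hq : q ∈ Q
    · rw [indicator_of_mem hq]
      have e1 : Real.sqrt (Y q ^ 2 + k ^ 2) ≤ Y q + k := by
        apply Real.sqrt_le_iff.2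
        constructor
        · linarith
        · nlinarith
      have e2 : 0 ≤ a ^ 2 / (2 * k) * Y q := mul_nonneg (by positivity) h0
      linarith
    · rw [indicator_of_notMem hq, add_zero]
      have e1 : Real.sqrt (Y q ^ 2 + k ^ 2) ≤ a ^ 2 / (2 * k) * Y q + k := by
        apply Real.sqrt_le_iff.2
        constructor
        · have : 0 ≤ a ^ 2 / (2 * k) * Y q := mul_nonneg (by positivity) h0
          linarith
        · have e2 := hQY q hq
          have e3 : Y q ^ 2 ≤ a ^ 2 * Y q := by nlinarith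
          have e4 : (a ^ 2 / (2 * k) * Y q + k) ^ 2 =
              (a ^ 2 / (2 * k) * Y q) ^ 2 + a ^ 2 * Y q + k ^ 2 := by
            field_simp
            ring
          rw [e4]
          have e5 : 0 ≤ (a ^ 2 / (2 * k) * Y q) ^ 2 := sq_nonneg _
          linarith
      linarith
  have h := integral_mono hZ ((hY.const_mul (a ^ 2 / (2 * k))).add hYQ) hpt
  refine h.trans (le_of_eq ?_)
  change ∫ q, (a ^ 2 / (2 * k) * Y q + Q.indicator Y q) ∂μ = _
  rw [integral_add (hY.const_mul _) hYQ, integral_const_mul, integral_indicator hQ]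

end Abstract

theorem hFN1 (hCAP : StCAP) (hLVL : StLVL) (hBLR : StBLR) (hMUJ : StMUJ) (hI4J : StI4J)
    (hENE : StENE) : StFN1 := by
  intro N M _ _ _ _ _ _ _ _ J F c χ δ hS hPin t ht τ hτ hGB hk hW3
  obtain ⟨s, -, hMU⟩ := hMUJ 2 N M J F c χ hS.toJ
  obtain ⟨hfin, -, hcint⟩ := hMU t ht
  have : IsFiniteMeasure (muM 2 F c χ t) := ⟨hfin⟩
  have hYc : Continuous (fun q => YF F q t) := (hPin.eY.sm t ht).continuous
  have hθc : Continuous (fun q => thF 2 F q t) := (hPin.eth.sm t ht).continuous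
  have hgc : Continuous (fun q => g3F F q t) := (hENE N M J F c χ hS t ht).1
  have hYi := (hcint _ hYc).1
  have hθi := (hcint _ hθc).1
  have hgi := (hcint _ hgc).1
  have hHc : Continuous (fun q => ‖HH (n := 2) F q t‖) := by
    have h1 : (fun q => ‖HH (n := 2) F q t‖) = fun q => Real.sqrt (YF F q t) := by
      funext q
      unfold YF
      rw [Real.sqrt_sq (norm_nonneg _)]
    rw [h1]
    exact hYc.sqrt
  have hPm : ∀ b : ℝ, MeasurableSet {q : M | b ≤ ‖HH (n := 2) F q t‖} := fun b =>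
    (isClosed_le continuous_const hHc).measurableSet
  set W := wI F c χ t with hW
  set e := eI F c χ t with he
  set d := dI F c χ t with hd
  have he0 : 0 ≤ e := integral_nonneg fun q => hPin.th0 q t ht
  have hd0 : 0 ≤ d := integral_nonneg fun q => hPin.g0 q t ht
  have hWpi : 16 * Real.pi ≤ W := by linarith
  have hW0 : 0 < W := by
    have := Real.pi_pos
    linarith
  have hδ := hPin.δ0
  -- the level
  set a : ℝ := Real.sqrt (1 / (80000 * W ^ 2 * τ)) with ha
  have ha2 : a ^ 2 = 1 / (80000 * W ^ 2 * τ) := Real.sq_sqrt (by positivity)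
  have ha0 : 0 < a := Real.sqrt_pos.2 (by positivity)
  -- first step
  have hlev : 1 / 400 ≤ eL F c χ t a := by
    have h1 : 1 / 200 < zI (1 / (400 * W * τ)) F c χ t := by
      refine hk _ (by positivity) (le_of_eq ?_)
      field_simp
    have h2 : zI (1 / (400 * W * τ)) F c χ t ≤ a ^ 2 / (2 * (1 / (400 * W * τ))) * W
        + eL F c χ t a := by
      refine FN1_z (hPm a) hYi ?_ (by positivity) (fun q => ?_) (fun q hq => ?_)
      · exact (hcint _ (((hYc.pow 2).add continuous_const).sqrt.sub continuous_const)).1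
      · have := hPin.y4 q t ht
        linarith
      · have h3 : ‖HH (n := 2) F q t‖ < a := not_le.1 hq
        change ‖HH (n := 2) F q t‖ ^ 2 ≤ a ^ 2
        exact pow_le_pow_left₀ (norm_nonneg _) h3.le 2
    have h3 : a ^ 2 / (2 * (1 / (400 * W * τ))) * W = 1 / 400 := by
      rw [ha2]
      field_simp
      norm_num
    rw [h3] at h2
    linarith
  set B : ℝ := 48 * Real.sqrt (W * d) with hB
  have hB0 : 0 ≤ B := by positivity
  have hB2 : B ^ 2 = 2304 * (W * d) := by
    rw [hB, mul_pow, Real.sq_sqrt (by positivity)]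
    norm_num
  have hBa : B ^ 2 < 1 / 400 * a ^ 2 := by
    rw [hB2, ha2, mul_one_div, lt_div_iff₀ (by positivity)]
    nlinarith
  have hBa' : B ≤ a := by
    have h1 : B ^ 2 ≤ a ^ 2 := by
      have : 0 < a ^ 2 := by positivity
      linarith
    exact (pow_le_pow_iff_left₀ hB0 ha0.le two_ne_zero).1 h1
  obtain ⟨hl1, hl2, hl3, A₀, hl4⟩ := hLVL N M J F c χ hS.toJ t ht
  have key := hBLR (mL F c χ t) (eL F c χ t) B W a (1 / 400) A₀ hB0 ha0 (by norm_num) hl1 hl2 hl3
    hl4 (fun b hb => by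
      have h1 := hCAP N M J F c χ δ hS hPin t ht b hb
      refine h1.trans (le_of_eq ?_)
      rw [hB]
      ring) hBa' hBa hlev
  -- the error term
  set D : ℝ := τ * d with hD
  have hD0 : 0 ≤ D := by positivity
  have hX : 4 * Real.sqrt W * B / a ≤ 54306 * (W ^ 2 * Real.sqrt D) := by
    have h1 : (4 * Real.sqrt W * B / a) ^ 2 ≤ (54306 * (W ^ 2 * Real.sqrt D)) ^ 2 := by
      have e1 : (4 * Real.sqrt W * B / a) ^ 2 = 16 * W * (2304 * (W * d)) / a ^ 2 := by
        rw [div_pow, mul_pow, mul_pow, Real.sq_sqrt hW0.le, hB2]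
        norm_num
      have e2 : (54306 * (W ^ 2 * Real.sqrt D)) ^ 2 = 2949141636 * (W ^ 4 * D) := by
        rw [mul_pow, mul_pow, Real.sq_sqrt hD0]
        ring
      rw [e1, e2, ha2, div_div_eq_mul_div, div_one, hD]
      have e3 : 0 ≤ W ^ 4 * (τ * d) := by positivity
      nlinarith
    exact (pow_le_pow_iff_left₀ (by positivity) (by positivity) two_ne_zero).1 h1
  have hcore := FN1_core (μ := muM 2 F c χ t) (a := a) (δ := δ) (hPm (a / 4)) hYi hθi hgi hδ ha0
    (fun q => hPin.y4 q t ht) (fun q => hPin.th0 q t ht) (fun q => hPin.th1 q t ht)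
    (fun q => hPin.g0 q t ht) (fun q => hPin.g1 q t ht) (fun q hq => by
      have h1 : a / 4 ≤ ‖HH (n := 2) F q t‖ := hq
      have h2 := pow_le_pow_left₀ (by positivity) h1 2
      change a ^ 2 / 16 ≤ ‖HH (n := 2) F q t‖ ^ 2
      refine le_trans (le_of_eq ?_) h2
      ring)
  obtain ⟨c1, c2⟩ := hcore
  change e ≤ 2 * (W - e) - 2 * eL F c χ t (a / 4) + 48 / (a ^ 2 * δ) * d at c1
  change arI F c χ t ≤ 3 / 4 * (W - e) - 3 / 4 * eL F c χ t (a / 4) + 12 / (a ^ 2 * δ) * d
    + 16 / a ^ 2 * W at c2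
  have f1 : 48 / (a ^ 2 * δ) * d = 3840000 * (W ^ 2 * D / δ) := by
    rw [ha2, hD]
    field_simp
    ring
  have f2 : 12 / (a ^ 2 * δ) * d = 960000 * (W ^ 2 * D / δ) := by
    rw [ha2, hD]
    field_simp
    ring
  have f3 : 16 / a ^ 2 * W = 1280000 * (W ^ 3 * τ) := by
    rw [ha2]
    field_simp
    norm_num
  rw [hGB, f1] at c1
  rw [hGB, f2, f3] at c2
  have g1 : 0 ≤ W ^ 2 * Real.sqrt D := by positivity
  have g2 : 0 ≤ W ^ 2 * D / δ := by positivity
  have g3 : 0 ≤ W ^ 3 * τ := by positivity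
  constructor
  · linarith
  · linarith

end Pool.Agent.Helper6.MS
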