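import Pool.Agent.Helper35.MS.StE

/-!
Project MS (MP_925021_gt): module TI (small energy at one time).
-/

set_option autoImplicit false

namespace Pool.Agent.Helper6.MS

open Helper35.MS Helper35.PI Helper35.PI2 Helper32.CL
open scoped ContDiff Manifold Topology ENNReal BigOperators
open MeasureTheory Set Filter

theorem hTI (hLEV : StLEV) (hEPS : StEPS) (hENE : StENE) (_hMUJ : StMUJ) : StTI := by
  intro N M _ _ _ _ _ _ _ J F c χ δ hS hP k t₁ t₂ hk ht hJ hz he hw p
  have hd0 : ∀ t ∈ J, 0 ≤ dI F c χ t := fun t ht' => integral_nonneg fun q => hP.g0 q t ht'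
  have he0 : ∀ t ∈ J, 0 ≤ eI F c χ t := fun t ht' => integral_nonneg fun q => hP.th0 q t ht'
  have hw0 : ∀ t, 0 ≤ wI F c χ t := fun t => integral_nonneg fun q => by
    change 0 ≤ YF F q t
    unfold YF
    positivity
  have h1 : t₁ ∈ Icc t₁ t₂ := ⟨le_rfl, ht.le⟩
  have hdw : ∀ t ∈ Icc t₁ t₂, HasDerivAt (wI F c χ) (-dI F c χ t) t := fun t ht' =>
    (hENE N M J F c χ hS t (hJ ht')).2.2.1
  have hmono : AntitoneOn (wI F c χ) (Icc t₁ t₂) := by
    refine antitoneOn_of_deriv_nonpos (convex_Icc t₁ t₂)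
      (fun t ht' => (hdw t ht').continuousAt.continuousWithinAt)
      (fun t ht' => ((hdw t (interior_subset ht')).differentiableAt).differentiableWithinAt)
      (fun t ht' => ?_)
    rw [(hdw t (interior_subset ht')).deriv]
    have := hd0 t (hJ (interior_subset ht'))
    linarith
  have key := hEPS N M J F c χ δ hS hP k (wI F c χ t₁) t₁ t₂ hk ht hJ (fun t ht' => by
    refine ⟨hmono h1 ht' ht'.1, ?_⟩
    have hL := hLEV N M J F c χ δ hS hP k t₁ t hk ht'.1
      (fun s hs => hJ ⟨hs.1, hs.2.trans ht'.2⟩)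
    have h2 : 0 ≤ eI F c χ t / δ := div_nonneg (he0 t (hJ ht')) hP.δ0.le
    have h3 : eI F c χ t₁ / δ ≤ 1 / 400 := by
      rw [div_le_iff₀ hP.δ0]
      linarith
    have h4 : k * wI F c χ t₁ * (t - t₁) ≤ k * wI F c χ t₁ * (t₂ - t₁) := by
      refine mul_le_mul_of_nonneg_left ?_ (mul_nonneg hk.le (hw0 t₁))
      linarith [ht'.2]
    linarith) p t₂ ⟨ht.le, le_rfl⟩
  refine key.trans ?_
  refine max_le le_rfl ?_
  have : 3 * k * wI F c χ t₁ * (t₂ - t₁) = 3 * (k * wI F c χ t₁ * (t₂ - t₁)) := by ring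
  linarith

end Pool.Agent.Helper6.MS
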